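import Pool.Agent.Q68.FC.Zig
import Pool.Agent.Q68.FC.Uni
import Pool.Agent.Q68.FC.Clo
import Pool.Agent.Q68.FC.Pus
import Pool.Agent.Q68.FC.Tra
import Pool.Agent.Q68.FC.Lif
import Pool.Agent.Q68.FC.Wty
import Pool.Agent.Q68.FC.Dir
import Pool.Agent.Q68.FC.Rec
import Pool.Agent.Q68.FC.Cov
import Pool.Agent.Q182.FC.Fla
import Pool.Agent.Q225.FC.Cha

/-! # MP_6a819e_al, Q1: full answer (YES), for every monoid

The Flat Cover Conjecture for acts holds over every monoid `S`, right-reversible or not: every right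
`S`-act has a flat cover. The definitions `Tens`, `Tens.map`, `IsFlat`, `IsFlatPrecover`,
`IsFlatCover` are in `Pool/Agent/Q55/FC/Stm.lean`; that file also contains the plan of the proof.

Idea. Call an inclusion `A ⊆ B` of right acts relatively flat if for all left acts `X ⊆ Y` the map
from the pushout of `A ⊗ Y ← A ⊗ X → B ⊗ X` to `B ⊗ Y` is injective. These inclusions are closed under
pushouts and unions of chains, and each of them is built from such inclusions of acts of cardinality
at most `max (#S) ℵ₀`; no Rees extensions are needed. So flat precovers exist by a small object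
argument, and covers follow since flat acts are closed under directed colimits. -/

universe u

namespace Pool.Agent.Results.MP_6a819e_al.FlatCovers

open Pool.Agent.Q55.FC MulOpposite

/-- the free right act `S` is flat -/
theorem free_flat (S : Type u) [Monoid S] : IsFlat S S := by
  intro X Y _ _ f hf
  -- evaluation `S ⊗ Y → Y`
  let ev : Tens S S Y → Y := Quot.lift (fun p => p.1 • p.2) (by
    rintro _ _ ⟨a, s, y, rfl, rfl⟩
    show (op s • a) • y = a • (s • y)
    rw [op_smul_eq_mul, mul_smul])
  have key : ∀ (s : S) (x : X),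
      (Quot.mk _ (s, x) : Tens S S X) = Quot.mk _ ((1 : S), s • x) := by
    intro s x
    refine Quot.sound ⟨1, s, x, ?_, rfl⟩
    rw [op_smul_eq_mul, one_mul]
  intro p q hpq
  obtain ⟨⟨s, x⟩, rfl⟩ := Quot.exists_rep p
  obtain ⟨⟨s', x'⟩, rfl⟩ := Quot.exists_rep q
  have h : ev (Tens.map S S f (Quot.mk _ (s, x))) = ev (Tens.map S S f (Quot.mk _ (s', x'))) := by
    rw [hpq]
  have h2 : s • f x = s' • f x' := h
  have h3 : s • x = s' • x' := hf (by rw [map_smul, map_smul, h2])
  exact (key s x).trans ((congrArg (fun z => (Quot.mk _ ((1 : S), z) : Tens S S X)) h3).trans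
    (key s' x').symm)

/-- **MP_6a819e_al, Q1 (YES, for every monoid).** Every (nonempty) right act `A` over every monoid
`S` has a flat cover `g : F → A`: `F` is flat, every homomorphism `F' → A` with `F'` flat factors
through `g`, and every endomorphism `f` of `F` with `g ∘ f = g` is an automorphism. -/
theorem result (S : Type u) [Monoid S] (A : Type u) [MulAction Sᵐᵒᵖ A] [Nonempty A] :
    ∃ (F : Type u) (_ : MulAction Sᵐᵒᵖ F) (g : F →[Sᵐᵒᵖ] A), Nonempty F ∧ IsFlatCover S g := by
  obtain ⟨W, iW, g, hflat, hEP⟩ := Pool.Agent.Q68.FC.wty.{u} Pool.Agent.Q68.FC.pus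
    Pool.Agent.Q225.FC.cha Pool.Agent.Q68.FC.tra S A
  have hpre : IsFlatPrecover S g := by
    refine ⟨(Pool.Agent.Q182.FC.fla.{u} S W).2 hflat, ?_⟩
    intro F' iF' h hF'
    exact Pool.Agent.Q68.FC.lif.{u} Pool.Agent.Q68.FC.zig Pool.Agent.Q68.FC.uni
      Pool.Agent.Q68.FC.clo Pool.Agent.Q225.FC.cha Pool.Agent.Q68.FC.tra S W A g hEP F' h
      ((Pool.Agent.Q182.FC.fla.{u} S F').1 hF')
  obtain ⟨F, iF, g', hg'⟩ := Pool.Agent.Q68.FC.cov.{u} Pool.Agent.Q68.FC.dir
    Pool.Agent.Q68.FC.rec S W A g hpre
  refine ⟨F, iF, g', ?_, hg'⟩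
  obtain ⟨a₀⟩ := (inferInstance : Nonempty A)
  let h : S →[Sᵐᵒᵖ] A :=
    { toFun := fun s => op s • a₀
      map_smul' := by
        intro m s
        induction m using MulOpposite.rec' with
        | h t =>
          show op (op t • s) • a₀ = op t • (op s • a₀)
          rw [op_smul_eq_mul, op_mul, mul_smul] }
  obtain ⟨f, -⟩ := hg'.1.2 S h (free_flat S)
  exact ⟨f 1⟩

end Pool.Agent.Results.MP_6a819e_al.FlatCovers
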